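import Mathlib

/-! Definitions for the hand-in on Camina pairs. -/

namespace Helper76.Cam

/-- `gam G i` is the `i`-th term `G_i` of the lower central series of `G`, numbered so that
`gam G 1 = G` and `gam G (i + 1) = [gam G i, G]` for `i ≥ 1`. -/
def gam (G : Type) [Group G] (i : ℕ) : Subgroup G :=
  Subgroup.lowerCentralSeries (⊤ : Subgroup G) (i - 1)

/-- `G` has nilpotence class `c`: `G_c ≠ 1` and `G_{c+1} = 1`. -/
def HasClass (G : Type) [Group G] (c : ℕ) : Prop :=
  gam G c ≠ ⊥ ∧ gam G (c + 1) = ⊥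

/-- `(G, N)` is a Camina pair: `N` is normal, `1 < N < G`, and for every `g ∈ G ∖ N` every element
of the coset `gN` is conjugate to `g`. -/
def IsCaminaPair {G : Type} [Group G] (N : Subgroup G) : Prop :=
  N.Normal ∧ N ≠ ⊥ ∧ N ≠ ⊤ ∧ ∀ g : G, g ∉ N → ∀ n ∈ N, IsConj g (g * n)

end Helper76.Cam
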