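import Mathlib

namespace Helper76.Cam

@[ext]
structure Grp {E F : Type} [Field E] [AddCommGroup F] (ν : E) (τ : E →+ F) (σ : E →+ E →+ F) where
  a : E
  h : E
  e : E
  b : E
  u : E
  v : E
  z : E
  t : F

namespace Grp

variable {E F : Type} [Field E] [AddCommGroup F] {ν : E} {τ : E →+ F} {σ : E →+ E →+ F}

/-- the `E`-valued part of the last coordinate of a product -/
def P (x y : Grp ν τ σ) : E :=
  4 * y.a * x.h ^ 4 - 8 * ν * y.a ^ 3 * x.h ^ 2 + 4 * y.a * x.h * x.u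
    + 24 * ν * y.a ^ 2 * x.h * x.e - 6 * y.a * x.h ^ 2 * x.b
    + 8 * y.h * (x.z + y.a * x.u + 6 * ν * y.a ^ 2 * x.e + 2 * y.a * x.h ^ 3
        - 2 * ν * y.a ^ 3 * x.h - y.a * x.h * x.b)
    - 4 * y.h ^ 2 * (x.v + y.a * x.b - 6 * y.a * x.h ^ 2)
    - 16 * y.h ^ 3 * (x.e - y.a * x.h)
    + 4 * ((x.u + 12 * ν * y.a * x.e - 6 * ν * y.a ^ 2 * x.h + y.h * x.b) * y.e
        - y.u * (x.e - y.a * x.h))
    + ((x.v + y.a * x.b - 6 * y.a * x.h ^ 2 + 12 * y.h * (x.e - y.a * x.h)) * y.b - y.v * x.b)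

instance : Mul (Grp ν τ σ) where
  mul x y :=
    { a := x.a + y.a
      h := x.h + y.h
      e := x.e - y.a * x.h + y.e
      b := x.b + y.b
      u := x.u + 12 * ν * y.a * x.e - 6 * ν * y.a ^ 2 * x.h + y.h * x.b + y.u
      v := x.v + y.a * x.b - 6 * y.a * x.h ^ 2 + 12 * y.h * (x.e - y.a * x.h) + y.v
      z := x.z + y.a * x.u + 6 * ν * y.a ^ 2 * x.e + 2 * y.a * x.h ^ 3
        - 2 * ν * y.a ^ 3 * x.h - y.a * x.h * x.b
        - y.h * (x.v + y.a * x.b - 6 * y.a * x.h ^ 2) - 6 * y.h ^ 2 * (x.e - y.a * x.h)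
        + y.z + ((x.e - y.a * x.h) * y.b - y.e * x.b)
      t := x.t + y.t + (τ (P x y) + σ x.a y.a) }

instance : One (Grp ν τ σ) where
  one := { a := 0, h := 0, e := 0, b := 0, u := 0, v := 0, z := 0, t := 0 }

@[simp] lemma one_a : (1 : Grp ν τ σ).a = 0 := rfl
@[simp] lemma one_h : (1 : Grp ν τ σ).h = 0 := rfl
@[simp] lemma one_e : (1 : Grp ν τ σ).e = 0 := rfl
@[simp] lemma one_b : (1 : Grp ν τ σ).b = 0 := rfl
@[simp] lemma one_u : (1 : Grp ν τ σ).u = 0 := rfl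
@[simp] lemma one_v : (1 : Grp ν τ σ).v = 0 := rfl
@[simp] lemma one_z : (1 : Grp ν τ σ).z = 0 := rfl
@[simp] lemma one_t : (1 : Grp ν τ σ).t = 0 := rfl

lemma mul_a (x y : Grp ν τ σ) : (x * y).a = x.a + y.a := rfl
lemma mul_h (x y : Grp ν τ σ) : (x * y).h = x.h + y.h := rfl
lemma mul_e (x y : Grp ν τ σ) : (x * y).e = x.e - y.a * x.h + y.e := rfl
lemma mul_b (x y : Grp ν τ σ) : (x * y).b = x.b + y.b := rfl
lemma mul_u (x y : Grp ν τ σ) : (x * y).u =
    x.u + 12 * ν * y.a * x.e - 6 * ν * y.a ^ 2 * x.h + y.h * x.b + y.u := rfl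
lemma mul_v (x y : Grp ν τ σ) : (x * y).v =
    x.v + y.a * x.b - 6 * y.a * x.h ^ 2 + 12 * y.h * (x.e - y.a * x.h) + y.v := rfl
lemma mul_z (x y : Grp ν τ σ) : (x * y).z =
    x.z + y.a * x.u + 6 * ν * y.a ^ 2 * x.e + 2 * y.a * x.h ^ 3
        - 2 * ν * y.a ^ 3 * x.h - y.a * x.h * x.b
        - y.h * (x.v + y.a * x.b - 6 * y.a * x.h ^ 2) - 6 * y.h ^ 2 * (x.e - y.a * x.h)
        + y.z + ((x.e - y.a * x.h) * y.b - y.e * x.b) := rfl
lemma mul_t (x y : Grp ν τ σ) : (x * y).t = x.t + y.t + (τ (P x y) + σ x.a y.a) := rfl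

lemma P_assoc (x y w : Grp ν τ σ) : P x y + P (x * y) w = P y w + P x (y * w) := by
  simp only [P, mul_a, mul_h, mul_e, mul_b, mul_u, mul_v, mul_z]
  ring

protected lemma mul_assoc' (x y w : Grp ν τ σ) : x * y * w = x * (y * w) := by
  ext
  · simp only [mul_a]; ring
  · simp only [mul_h]; ring
  · simp only [mul_a, mul_h, mul_e]; ring
  · simp only [mul_b]; ring
  · simp only [mul_a, mul_h, mul_e, mul_b, mul_u]; ring
  · simp only [mul_a, mul_h, mul_e, mul_b, mul_v]; ring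
  · simp only [mul_a, mul_h, mul_e, mul_b, mul_u, mul_v, mul_z]; ring
  · have h1 := congrArg τ (P_assoc x y w)
    simp only [map_add] at h1
    simp only [mul_t, mul_a, map_add, AddMonoidHom.add_apply]
    have h2 : τ (P (x * y) w) = τ (P y w) + τ (P x (y * w)) - τ (P x y) := by
      rw [← h1]; abel
    rw [h2]
    abel

/-- the inverse, up to the last coordinate -/
def inv0 (x : Grp ν τ σ) : Grp ν τ σ :=
  { a := -x.a
    h := -x.h
    e := -(x.e + x.a * x.h)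
    b := -x.b
    u := -(x.u - 12 * ν * x.a * x.e - 6 * ν * x.a ^ 2 * x.h - x.h * x.b)
    v := -(x.v - x.a * x.b + 6 * x.a * x.h ^ 2 - 12 * x.h * (x.e + x.a * x.h))
    z := -(x.z - x.a * x.u + 6 * ν * x.a ^ 2 * x.e - 2 * x.a * x.h ^ 3
        + 2 * ν * x.a ^ 3 * x.h + x.a * x.h * x.b
        + x.h * (x.v - x.a * x.b + 6 * x.a * x.h ^ 2) - 6 * x.h ^ 2 * (x.e + x.a * x.h))
    t := 0 }

/-- the inverse -/
def inv' (x : Grp ν τ σ) : Grp ν τ σ :=
  { a := (inv0 x).a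
    h := (inv0 x).h
    e := (inv0 x).e
    b := (inv0 x).b
    u := (inv0 x).u
    v := (inv0 x).v
    z := (inv0 x).z
    t := -(x.t + (τ (P x (inv0 x)) + σ x.a (-x.a))) }

protected lemma mul_inv_cancel' (x : Grp ν τ σ) : x * inv' x = 1 := by
  ext
  · simp only [mul_a, inv', inv0, one_a]; ring
  · simp only [mul_h, inv', inv0, one_h]; ring
  · simp only [mul_e, inv', inv0, one_e]; ring
  · simp only [mul_b, inv', inv0, one_b]; ring
  · simp only [mul_u, inv', inv0, one_u]; ring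
  · simp only [mul_v, inv', inv0, one_v]; ring
  · simp only [mul_z, inv', inv0, one_z]; ring
  · have h3 : P x (inv' x) = P x (inv0 x) := rfl
    rw [mul_t, h3]
    change x.t + -(x.t + (τ (P x (inv0 x)) + σ x.a (-x.a))) +
      (τ (P x (inv0 x)) + σ x.a (-x.a)) = 0
    abel

protected lemma mul_one' (x : Grp ν τ σ) : x * 1 = x := by
  ext
  · simp only [mul_a, one_a]; ring
  · simp only [mul_h, one_h]; ring
  · simp only [mul_e, one_a, one_e]; ring
  · simp only [mul_b, one_b]; ring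
  · simp only [mul_u, one_a, one_h, one_u]; ring
  · simp only [mul_v, one_a, one_h, one_v]; ring
  · simp only [mul_z, one_a, one_h, one_e, one_b, one_z]; ring
  · have h3 : P x 1 = 0 := by
      simp only [P, one_a, one_h, one_e, one_b, one_u, one_v]
      ring
    rw [mul_t, h3, one_a, one_t]
    simp

instance : Group (Grp ν τ σ) :=
  letI : Inv (Grp ν τ σ) := ⟨inv'⟩
  Group.ofRightAxioms Grp.mul_assoc' Grp.mul_one' Grp.mul_inv_cancel'

end Grp
end Helper76.Cam
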