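import Pool.Agent.Helper76.Cam.Series

namespace Helper76.Cam

theorem main (p : ℕ) (hp : p.Prime) (h5 : 5 ≤ p) :
    ∃ (G : Type) (_ : Group G) (N : Subgroup G),
      Nat.card G = p ^ 15 ∧ HasClass G 5 ∧ IsCaminaPair N ∧
        N = gam G 3 ∧ N ≠ gam G 4 ∧ N ≠ gam G 5 := by
  have : Fact p.Prime := ⟨hp⟩
  have hfr : Module.finrank (ZMod p) (GaloisField p 2) = 2 := GaloisField.finrank p two_ne_zero
  let B : Module.Basis (Fin 2) (ZMod p) (GaloisField p 2) := Module.finBasisOfFinrankEq _ _ hfr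
  have hchar : ∀ n : ℕ, 0 < n → n < 5 → ((n : ℕ) : GaloisField p 2) ≠ 0 := by
    intro n h0 hn h
    rw [CharP.cast_eq_zero_iff (GaloisField p 2) p] at h
    have := Nat.le_of_dvd h0 h
    omega
  have h2 : (2 : GaloisField p 2) ≠ 0 := by
    have := hchar 2 (by norm_num) (by norm_num)
    exact_mod_cast this
  have h3 : (3 : GaloisField p 2) ≠ 0 := by
    have := hchar 3 (by norm_num) (by norm_num)
    exact_mod_cast this
  obtain ⟨ν, hν⟩ : ∃ ν : GaloisField p 2, ¬ IsSquare ν := by
    apply FiniteField.exists_nonsquare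
    rw [← CharP.ringChar_of_prime_eq_zero hp (CharP.cast_eq_zero (GaloisField p 2) p)] at h5
    omega
  have hν' : ∀ x : GaloisField p 2, ν ≠ x ^ 2 := by
    intro x h
    exact hν ⟨x, by rw [h, sq]⟩
  let τ : GaloisField p 2 →+ ZMod p := (B.coord 0).toAddMonoidHom
  have hτ : Function.Surjective τ := by
    intro s
    refine ⟨s • B 0, ?_⟩
    change B.coord 0 (s • B 0) = s
    simp
  let σ : GaloisField p 2 →+ GaloisField p 2 →+ ZMod p :=
    AddMonoidHom.mk' (fun x => AddMonoidHom.mk' (fun y => B.coord 0 x * B.coord 1 y)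
      (by intro a b; rw [map_add, mul_add]))
      (by intro a b; ext y; simp [add_mul])
  have hσv : ∀ x y, σ x y = B.coord 0 x * B.coord 1 y := fun _ _ => rfl
  have hσ : ∀ a : GaloisField p 2, a ≠ 0 → ∀ s : ZMod p, ∃ x, σ x a - σ a x = s := by
    intro a ha s
    by_cases h1 : B.coord 1 a = 0
    · have h0 : B.coord 0 a ≠ 0 := by
        intro h0
        apply ha
        apply B.repr.injective
        rw [map_zero]
        ext i
        fin_cases i
        · exact h0
        · exact h1
      refine ⟨(-s / B.coord 0 a) • B 1, ?_⟩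
      rw [hσv, hσv, h1]
      have e1 : B.coord 1 ((-s / B.coord 0 a) • B 1) = -s / B.coord 0 a := by simp
      rw [e1]
      field_simp
      ring
    · refine ⟨(s / B.coord 1 a) • B 0, ?_⟩
      rw [hσv, hσv]
      have e1 : B.coord 0 ((s / B.coord 1 a) • B 0) = s / B.coord 1 a := by simp
      have e2 : B.coord 1 ((s / B.coord 1 a) • B 0) = 0 := by simp
      rw [e1, e2]
      field_simp
      ring
  have : Nontrivial (ZMod p) := ZMod.nontrivial p
  refine ⟨Grp ν τ σ, inferInstance, Grp.D2 ν τ σ, ?_, Grp.summary h2 h3 hν' hτ hσ⟩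
  rw [Grp.card_eq, GaloisField.card p 2 two_ne_zero, Nat.card_zmod]
  ring

end Helper76.Cam
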