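import Pool.Agent.Helper76.Cam.Steps
import Pool.Agent.Helper76.Cam.Defs

namespace Helper76.Cam
namespace Grp

variable {E F : Type} [Field E] [AddCommGroup F] (ν : E) (τ : E →+ F) (σ : E →+ E →+ F)

/-- second term -/
def D1 : Subgroup (Grp ν τ σ) where
  carrier := {x | x.a = 0 ∧ x.h = 0 ∧ x.b = 0}
  one_mem' := ⟨rfl, rfl, rfl⟩
  mul_mem' := by
    rintro x y ⟨h1, h2, h3⟩ ⟨k1, k2, k3⟩
    refine ⟨?_, ?_, ?_⟩
    · rw [mul_a, h1, k1, add_zero]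
    · rw [mul_h, h2, k2, add_zero]
    · rw [mul_b, h3, k3, add_zero]
  inv_mem' := by
    rintro x ⟨h1, h2, h3⟩
    refine ⟨?_, ?_, ?_⟩
    · rw [inv_a, h1, neg_zero]
    · rw [inv_h, h2, neg_zero]
    · rw [inv_b, h3, neg_zero]

/-- third term -/
def D2 : Subgroup (Grp ν τ σ) where
  carrier := {x | InN x}
  one_mem' := ⟨rfl, rfl, rfl, rfl⟩
  mul_mem' := by
    rintro x y ⟨h1, h2, h3, h4⟩ ⟨k1, k2, k3, k4⟩
    refine ⟨?_, ?_, ?_, ?_⟩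
    · rw [mul_a, h1, k1, add_zero]
    · rw [mul_h, h2, k2, add_zero]
    · rw [mul_e, h2, h3, k1, k3]; ring
    · rw [mul_b, h4, k4, add_zero]
  inv_mem' := by
    rintro x ⟨h1, h2, h3, h4⟩
    refine ⟨?_, ?_, ?_, ?_⟩
    · rw [inv_a, h1, neg_zero]
    · rw [inv_h, h2, neg_zero]
    · rw [inv_e, h1, h2, h3]; ring
    · rw [inv_b, h4, neg_zero]

/-- fourth term -/
def D3 : Subgroup (Grp ν τ σ) where
  carrier := {x | InN x ∧ x.u = 0 ∧ x.v = 0}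
  one_mem' := ⟨⟨rfl, rfl, rfl, rfl⟩, rfl, rfl⟩
  mul_mem' := by
    rintro x y ⟨hx, h5, h6⟩ ⟨hy, k5, k6⟩
    refine ⟨(D2 ν τ σ).mul_mem hx hy, ?_, ?_⟩
    · obtain ⟨h1, h2, h3, h4⟩ := hx
      obtain ⟨k1, k2, k3, k4⟩ := hy
      simp only [mul_u, h1, h2, h3, h4, h5, k1, k2, k3, k4, k5]; ring
    · obtain ⟨h1, h2, h3, h4⟩ := hx
      obtain ⟨k1, k2, k3, k4⟩ := hy
      simp only [mul_v, h1, h2, h3, h4, h6, k1, k2, k3, k4, k6]; ring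
  inv_mem' := by
    rintro x ⟨hx, h5, h6⟩
    refine ⟨(D2 ν τ σ).inv_mem hx, ?_, ?_⟩
    · obtain ⟨h1, h2, h3, h4⟩ := hx
      simp only [inv_u, h1, h2, h3, h4, h5]; ring
    · obtain ⟨h1, h2, h3, h4⟩ := hx
      simp only [inv_v, h1, h2, h3, h4, h6]; ring

/-- fifth term -/
def D4 : Subgroup (Grp ν τ σ) where
  carrier := {x | (InN x ∧ x.u = 0 ∧ x.v = 0) ∧ x.z = 0}
  one_mem' := ⟨⟨⟨rfl, rfl, rfl, rfl⟩, rfl, rfl⟩, rfl⟩
  mul_mem' := by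
    rintro x y ⟨hx, h7⟩ ⟨hy, k7⟩
    refine ⟨(D3 ν τ σ).mul_mem hx hy, ?_⟩
    obtain ⟨⟨h1, h2, h3, h4⟩, h5, h6⟩ := hx
    obtain ⟨⟨k1, k2, k3, k4⟩, k5, k6⟩ := hy
    simp only [mul_z, h1, h2, h3, h4, h5, h6, h7, k1, k2, k3, k4, k7]; ring
  inv_mem' := by
    rintro x ⟨hx, h7⟩
    refine ⟨(D3 ν τ σ).inv_mem hx, ?_⟩
    obtain ⟨⟨h1, h2, h3, h4⟩, h5, h6⟩ := hx
    simp only [inv_z, h1, h2, h3, h4, h5, h6, h7]; ring

/-- the descending series -/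
def D : ℕ → Subgroup (Grp ν τ σ)
  | 0 => ⊤
  | 1 => D1 ν τ σ
  | 2 => D2 ν τ σ
  | 3 => D3 ν τ σ
  | 4 => D4 ν τ σ
  | _ => ⊥

variable {ν τ σ}

lemma comm_eq (x g : Grp ν τ σ) : (x * g * x⁻¹ * g⁻¹) * (g * x) = x * g := by group

lemma mem_D1 (x g : Grp ν τ σ) : x * g * x⁻¹ * g⁻¹ ∈ D1 ν τ σ := by
  have h := comm_eq x g
  set c := x * g * x⁻¹ * g⁻¹
  refine ⟨?_, ?_, ?_⟩
  · have := congrArg Grp.a h
    simp only [mul_a] at this
    linear_combination this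
  · have := congrArg Grp.h h
    simp only [mul_h] at this
    linear_combination this
  · have := congrArg Grp.b h
    simp only [mul_b] at this
    linear_combination this

lemma mem_D2 (x g : Grp ν τ σ) (hx : x ∈ D1 ν τ σ) : x * g * x⁻¹ * g⁻¹ ∈ D2 ν τ σ := by
  have h := comm_eq x g
  obtain ⟨c1, c2, c3⟩ := mem_D1 x g
  obtain ⟨h1, h2, h3⟩ := hx
  set c := x * g * x⁻¹ * g⁻¹
  refine ⟨c1, c2, ?_, c3⟩
  have := congrArg Grp.e h
  simp only [mul_e, mul_a, c1, c2, h1, h2] at this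
  linear_combination this

lemma mem_D3 (x g : Grp ν τ σ) (hx : x ∈ D2 ν τ σ) : x * g * x⁻¹ * g⁻¹ ∈ D3 ν τ σ := by
  have h := comm_eq x g
  obtain ⟨h1, h2, h3, h4⟩ := hx
  obtain ⟨c1, c2, c3, c4⟩ := mem_D2 x g ⟨h1, h2, h4⟩
  set c := x * g * x⁻¹ * g⁻¹
  refine ⟨⟨c1, c2, c3, c4⟩, ?_, ?_⟩
  · have := congrArg Grp.u h
    simp only [mul_u, mul_a, mul_h, c1, c2, c3, c4, h1, h2, h3, h4] at this
    linear_combination this
  · have := congrArg Grp.v h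
    simp only [mul_v, mul_a, mul_h, c1, c2, c3, c4, h1, h2, h3, h4] at this
    linear_combination this

lemma mem_D4 (x g : Grp ν τ σ) (hx : x ∈ D3 ν τ σ) : x * g * x⁻¹ * g⁻¹ ∈ D4 ν τ σ := by
  have h := comm_eq x g
  obtain ⟨⟨h1, h2, h3, h4⟩, h5, h6⟩ := hx
  obtain ⟨⟨c1, c2, c3, c4⟩, c5, c6⟩ := mem_D3 x g ⟨h1, h2, h3, h4⟩
  set c := x * g * x⁻¹ * g⁻¹
  refine ⟨⟨⟨c1, c2, c3, c4⟩, c5, c6⟩, ?_⟩
  have := congrArg Grp.z h
  simp only [mul_z, mul_a, mul_h, mul_e, mul_b, c1, c2, c3, c4, c5, c6, h1, h2, h3, h4, h5, h6]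
    at this
  linear_combination this

lemma mem_D5 (x g : Grp ν τ σ) (hx : x ∈ D4 ν τ σ) : x * g * x⁻¹ * g⁻¹ = 1 := by
  obtain ⟨⟨⟨h1, h2, h3, h4⟩, h5, h6⟩, h7⟩ := hx
  have hT : x = T ν τ σ x.t := by
    ext
    · exact h1
    · exact h2
    · exact h3
    · exact h4
    · exact h5
    · exact h6
    · exact h7
    · rfl
  rw [hT, T_mul]
  group

lemma isDesc : Subgroup.IsDescendingCentralSeries (D ν τ σ) := by
  refine ⟨rfl, ?_⟩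
  intro x n hx g
  match n, hx with
  | 0, _ => exact mem_D1 x g
  | 1, hx => exact mem_D2 x g hx
  | 2, hx => exact mem_D3 x g hx
  | 3, hx => exact mem_D4 x g hx
  | 4, hx => exact mem_D5 x g hx
  | (n + 5), hx =>
    have : x = 1 := hx
    subst this
    rw [commutatorElement_one_left]
    exact Subgroup.one_mem _

lemma lcs_le (n : ℕ) :
    Subgroup.lowerCentralSeries (⊤ : Subgroup (Grp ν τ σ)) n ≤ D ν τ σ n :=
  Subgroup.descending_central_series_ge_lower _ isDesc n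

/-- generators -/
def M (ν : E) (τ : E →+ F) (σ : E →+ E →+ F) : Grp ν τ σ :=
  { a := 1, h := 0, e := 0, b := 0, u := 0, v := 0, z := 0, t := 0 }

def Y (ν : E) (τ : E →+ F) (σ : E →+ E →+ F) : Grp ν τ σ :=
  { a := 0, h := 1, e := 0, b := 0, u := 0, v := 0, z := 0, t := 0 }

def U (ν : E) (τ : E →+ F) (σ : E →+ E →+ F) (s : E) : Grp ν τ σ :=
  { a := 0, h := 0, e := 0, b := 0, u := s, v := 0, z := 0, t := 0 }

lemma mem_lcs_succ {G : Type} [Group G] {n : ℕ} {x : G}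
    (hx : x ∈ Subgroup.lowerCentralSeries (⊤ : Subgroup G) n) (g : G) :
    x * g * x⁻¹ * g⁻¹ ∈ Subgroup.lowerCentralSeries (⊤ : Subgroup G) (n + 1) := by
  rw [Subgroup.lowerCentralSeries_succ]
  exact Subgroup.commutator_mem_commutator hx (Subgroup.mem_top g)

/-- an element of the derived group outside `N` -/
lemma exists_outside :
    ∃ c : Grp ν τ σ, c ∈ Subgroup.lowerCentralSeries (⊤ : Subgroup (Grp ν τ σ)) 1 ∧ ¬ InN c := by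
  refine ⟨Y ν τ σ * M ν τ σ * (Y ν τ σ)⁻¹ * (M ν τ σ)⁻¹, mem_lcs_succ (n := 0) (Subgroup.mem_top _) _, ?_⟩
  rintro ⟨c1, c2, c3, c4⟩
  have h := comm_eq (Y ν τ σ) (M ν τ σ)
  set c := Y ν τ σ * M ν τ σ * (Y ν τ σ)⁻¹ * (M ν τ σ)⁻¹
  have := congrArg Grp.e h
  simp only [mul_e, mul_a, c1, c2, c3, Y, M] at this
  have h1 : (1 : E) = 0 := by linear_combination this
  exact one_ne_zero h1

lemma N_le (h2 : (2 : E) ≠ 0) (h3 : (3 : E) ≠ 0) (hν : ∀ x : E, ν ≠ x ^ 2)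
    (hτ : Function.Surjective τ)
    (hσ : ∀ a : E, a ≠ 0 → ∀ s : F, ∃ x, σ x a - σ a x = s) :
    D2 ν τ σ ≤ Subgroup.lowerCentralSeries (⊤ : Subgroup (Grp ν τ σ)) 2 := by
  intro n hn
  obtain ⟨c, hc, hcN⟩ := exists_outside (ν := ν) (τ := τ) (σ := σ)
  obtain ⟨x, hx⟩ := camina h2 h3 hν hτ hσ c n hcN hn
  have : n = c⁻¹ * x * c⁻¹⁻¹ * x⁻¹ := by
    have h4 : n = c⁻¹ * (c * n * x) * x⁻¹ := by group
    rw [h4, ← hx]
    group
  rw [this]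
  exact mem_lcs_succ (Subgroup.inv_mem _ hc) x

lemma lcs_two (h2 : (2 : E) ≠ 0) (h3 : (3 : E) ≠ 0) (hν : ∀ x : E, ν ≠ x ^ 2)
    (hτ : Function.Surjective τ)
    (hσ : ∀ a : E, a ≠ 0 → ∀ s : F, ∃ x, σ x a - σ a x = s) :
    D2 ν τ σ = Subgroup.lowerCentralSeries (⊤ : Subgroup (Grp ν τ σ)) 2 :=
  le_antisymm (N_le h2 h3 hν hτ hσ) (lcs_le 2)

lemma U_mem (s : E) : U ν τ σ s ∈ D2 ν τ σ := ⟨rfl, rfl, rfl, rfl⟩

lemma U_not_mem_D3 : U ν τ σ 1 ∉ D3 ν τ σ := by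
  rintro ⟨_, h, _⟩
  exact one_ne_zero h

lemma lcs_four_ne [Nontrivial F] (h2 : (2 : E) ≠ 0) (h3 : (3 : E) ≠ 0) (hν : ∀ x : E, ν ≠ x ^ 2)
    (hτ : Function.Surjective τ)
    (hσ : ∀ a : E, a ≠ 0 → ∀ s : F, ∃ x, σ x a - σ a x = s) :
    Subgroup.lowerCentralSeries (⊤ : Subgroup (Grp ν τ σ)) 4 ≠ ⊥ := by
  intro hbot
  have h8 : (8 : E) ≠ 0 := by
    have : (8 : E) = 2 * 2 * 2 := by norm_num
    rw [this]; exact mul_ne_zero (mul_ne_zero h2 h2) h2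
  obtain ⟨f, hf⟩ := exists_ne (0 : F)
  obtain ⟨y, hy⟩ := hτ f
  have hU := N_le h2 h3 hν hτ hσ (U_mem (ν := ν) (τ := τ) (σ := σ) (y / 8))
  have hc := mem_lcs_succ hU (M ν τ σ)
  have hcD := mem_D3 (U ν τ σ (y / 8)) (M ν τ σ) (U_mem _)
  have hce := comm_eq (U ν τ σ (y / 8)) (M ν τ σ)
  set c := U ν τ σ (y / 8) * M ν τ σ * (U ν τ σ (y / 8))⁻¹ * (M ν τ σ)⁻¹
  clear_value c
  obtain ⟨⟨c1, c2, c3, c4⟩, c5, c6⟩ := hcD
  have hcz : c.z = y / 8 := by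
    have := congrArg Grp.z hce
    simp only [mul_z, mul_a, mul_h, mul_e, mul_b, mul_u, mul_v, c1, c2, c3, c4, c5, c6, U, M]
      at this
    linear_combination this
  have hd := mem_lcs_succ hc (Y ν τ σ)
  rw [hbot, Subgroup.mem_bot] at hd
  have hcomm : c * Y ν τ σ = Y ν τ σ * c := by
    have := comm_eq c (Y ν τ σ)
    rw [hd, one_mul] at this
    exact this.symm
  have ht := congrArg Grp.t hcomm
  have hP1 : P c (Y ν τ σ) = y := by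
    simp only [P, c1, c2, c3, c4, c5, c6, hcz, Y]
    field_simp
    ring
  have hP2 : P (Y ν τ σ) c = 0 := by
    simp only [P, c1, c2, c3, c4, c5, c6, Y]
    ring
  rw [mul_t, mul_t, hP1, hP2, c1, hy] at ht
  simp only [Y, map_zero, AddMonoidHom.zero_apply, add_zero, zero_add] at ht
  exact hf (by simpa using ht)

lemma lcs_five : Subgroup.lowerCentralSeries (⊤ : Subgroup (Grp ν τ σ)) 5 = ⊥ :=
  le_bot_iff.mp (lcs_le 5)

/-- the equivalence with a product -/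
def equivProd : Grp ν τ σ ≃ (E × E × E × E × E × E × E) × F where
  toFun x := ⟨⟨x.a, x.h, x.e, x.b, x.u, x.v, x.z⟩, x.t⟩
  invFun y :=
    { a := y.1.1
      h := y.1.2.1
      e := y.1.2.2.1
      b := y.1.2.2.2.1
      u := y.1.2.2.2.2.1
      v := y.1.2.2.2.2.2.1
      z := y.1.2.2.2.2.2.2
      t := y.2 }
  left_inv _ := rfl
  right_inv _ := rfl

lemma card_eq : Nat.card (Grp ν τ σ) = Nat.card E ^ 7 * Nat.card F := by
  rw [Nat.card_congr equivProd]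
  simp only [Nat.card_prod]
  ring

/-- everything together -/
theorem summary [Nontrivial F] (h2 : (2 : E) ≠ 0) (h3 : (3 : E) ≠ 0) (hν : ∀ x : E, ν ≠ x ^ 2)
    (hτ : Function.Surjective τ)
    (hσ : ∀ a : E, a ≠ 0 → ∀ s : F, ∃ x, σ x a - σ a x = s) :
    HasClass (Grp ν τ σ) 5 ∧ IsCaminaPair (D2 ν τ σ) ∧
      D2 ν τ σ = gam (Grp ν τ σ) 3 ∧ D2 ν τ σ ≠ gam (Grp ν τ σ) 4 ∧
      D2 ν τ σ ≠ gam (Grp ν τ σ) 5 := by
  have hN := lcs_two (ν := ν) (τ := τ) (σ := σ) h2 h3 hν hτ hσ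
  have h3' : ¬ D2 ν τ σ ≤ D3 ν τ σ := fun h => U_not_mem_D3 (h (U_mem 1))
  refine ⟨⟨lcs_four_ne h2 h3 hν hτ hσ, lcs_five⟩, ⟨?_, ?_, ?_, ?_⟩, hN, ?_, ?_⟩
  · rw [hN]; infer_instance
  · intro h
    apply h3'
    rw [h]
    exact bot_le
  · intro h
    have : M ν τ σ ∈ D2 ν τ σ := by rw [h]; exact Subgroup.mem_top _
    exact one_ne_zero this.1
  · intro g hg n hn
    obtain ⟨x, hx⟩ := camina h2 h3 hν hτ hσ g n hg hn
    rw [isConj_iff]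
    exact ⟨x, by rw [hx]; group⟩
  · intro h
    apply h3'
    rw [h]
    exact lcs_le 3
  · intro h
    apply h3'
    rw [h]
    intro x hx
    exact (lcs_le 4 hx).1

end Grp
end Helper76.Cam
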