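import Pool.Agent.Helper76.Cam.Grp

namespace Helper76.Cam
namespace Grp

variable {E F : Type} [Field E] [AddCommGroup F] {ν : E} {τ : E →+ F} {σ : E →+ E →+ F}

lemma inv_a (x : Grp ν τ σ) : (x⁻¹).a = -x.a := rfl
lemma inv_h (x : Grp ν τ σ) : (x⁻¹).h = -x.h := rfl
lemma inv_e (x : Grp ν τ σ) : (x⁻¹).e = -(x.e + x.a * x.h) := rfl
lemma inv_b (x : Grp ν τ σ) : (x⁻¹).b = -x.b := rfl
lemma inv_u (x : Grp ν τ σ) : (x⁻¹).u =
    -(x.u - 12 * ν * x.a * x.e - 6 * ν * x.a ^ 2 * x.h - x.h * x.b) := rfl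
lemma inv_v (x : Grp ν τ σ) : (x⁻¹).v =
    -(x.v - x.a * x.b + 6 * x.a * x.h ^ 2 - 12 * x.h * (x.e + x.a * x.h)) := rfl
lemma inv_z (x : Grp ν τ σ) : (x⁻¹).z =
    -(x.z - x.a * x.u + 6 * ν * x.a ^ 2 * x.e - 2 * x.a * x.h ^ 3
        + 2 * ν * x.a ^ 3 * x.h + x.a * x.h * x.b
        + x.h * (x.v - x.a * x.b + 6 * x.a * x.h ^ 2) - 6 * x.h ^ 2 * (x.e + x.a * x.h)) := rfl

/-- the central element with last coordinate `s` -/
def T (ν : E) (τ : E →+ F) (σ : E →+ E →+ F) (s : F) : Grp ν τ σ :=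
  { a := 0, h := 0, e := 0, b := 0, u := 0, v := 0, z := 0, t := s }

lemma P_T_right (x : Grp ν τ σ) (s : F) : P x (T ν τ σ s) = 0 := by
  simp only [P, T]; ring

lemma P_T_left (x : Grp ν τ σ) (s : F) : P (T ν τ σ s) x = 0 := by
  simp only [P, T]; ring

lemma mul_T (x : Grp ν τ σ) (s : F) : x * T ν τ σ s =
    { a := x.a, h := x.h, e := x.e, b := x.b, u := x.u, v := x.v, z := x.z, t := x.t + s } := by
  ext
  · simp only [mul_a, T]; ring
  · simp only [mul_h, T]; ring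
  · simp only [mul_e, T]; ring
  · simp only [mul_b, T]; ring
  · simp only [mul_u, T]; ring
  · simp only [mul_v, T]; ring
  · simp only [mul_z, T]; ring
  · rw [mul_t, P_T_right]
    simp [T]

lemma T_mul (x : Grp ν τ σ) (s : F) : T ν τ σ s * x = x * T ν τ σ s := by
  rw [mul_T]
  ext
  · simp only [mul_a, T]; ring
  · simp only [mul_h, T]; ring
  · simp only [mul_e, T]; ring
  · simp only [mul_b, T]; ring
  · simp only [mul_u, T]; ring
  · simp only [mul_v, T]; ring
  · simp only [mul_z, T]; ring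
  · rw [mul_t, P_T_left]
    simp [T, add_comm]

lemma T_add (s s' : F) : T ν τ σ s * T ν τ σ s' = T ν τ σ (s + s') := by
  rw [mul_T]; rfl

lemma T_zero : T ν τ σ 0 = 1 := rfl

/-- equality up to the last coordinate gives equality up to a central factor -/
lemma eq_mul_T {x y : Grp ν τ σ} (ha : x.a = y.a) (hh : x.h = y.h) (he : x.e = y.e)
    (hb : x.b = y.b) (hu : x.u = y.u) (hv : x.v = y.v) (hz : x.z = y.z) :
    x = y * T ν τ σ (x.t - y.t) := by
  rw [mul_T]
  ext
  · exact ha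
  · exact hh
  · exact he
  · exact hb
  · exact hu
  · exact hv
  · exact hz
  · simp

/-- membership in the third term -/
def InN (x : Grp ν τ σ) : Prop := x.a = 0 ∧ x.h = 0 ∧ x.e = 0 ∧ x.b = 0

lemma norm_ne (hν : ∀ x : E, ν ≠ x ^ 2) {a h : E} (H : ¬ (a = 0 ∧ h = 0)) :
    ν * a ^ 2 - h ^ 2 ≠ 0 := by
  intro h0
  by_cases ha : a = 0
  · subst ha
    have : h ^ 2 = 0 := by linear_combination -h0
    exact H ⟨rfl, by simpa using this⟩
  · apply hν (h / a)
    field_simp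
    linear_combination h0

lemma stepA1 (h2 : (2 : E) ≠ 0) (h3 : (3 : E) ≠ 0) (hν : ∀ x : E, ν ≠ x ^ 2)
    (g n : Grp ν τ σ) (hg : ¬ (g.a = 0 ∧ g.h = 0)) (hn : InN n) :
    ∃ (x : Grp ν τ σ) (s : F), x * g = g * n * T ν τ σ s * x := by
  obtain ⟨hna, hnh, hne, hnb⟩ := hn
  have hD := norm_ne hν hg
  have h12 : (12 : E) ≠ 0 := by
    have : (12 : E) = 2 * 2 * 3 := by norm_num
    rw [this]; exact mul_ne_zero (mul_ne_zero h2 h2) h3
  set D := ν * g.a ^ 2 - g.h ^ 2 with hDdef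
  obtain ⟨xe, hxe⟩ : ∃ xe, 12 * D * xe = g.a * n.u - g.h * n.v :=
    ⟨(g.a * n.u - g.h * n.v) / (12 * D), by field_simp⟩
  obtain ⟨xb, hxb⟩ : ∃ xb, D * xb = ν * g.a * n.v - g.h * n.u :=
    ⟨(ν * g.a * n.v - g.h * n.u) / D, by field_simp⟩
  set R := n.z + 2 * (g.e * xb - xe * g.b) - 6 * ν * g.a ^ 2 * xe + g.h * g.a * xb
    + 6 * g.h ^ 2 * xe with hR
  obtain ⟨xu, hxu⟩ : ∃ xu, D * xu = ν * g.a * R := ⟨ν * g.a * R / D, by field_simp⟩
  obtain ⟨xv, hxv⟩ : ∃ xv, D * xv = g.h * R := ⟨g.h * R / D, by field_simp⟩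
  let x : Grp ν τ σ := { a := 0, h := 0, e := xe, b := xb, u := xu, v := xv, z := 0, t := 0 }
  have e1 : 12 * ν * g.a * xe + g.h * xb = n.u := by
    apply mul_left_cancel₀ hD
    linear_combination ν * g.a * hxe + g.h * hxb - n.u * hDdef
  have e2 : g.a * xb + 12 * g.h * xe = n.v := by
    apply mul_left_cancel₀ hD
    linear_combination g.a * hxb + g.h * hxe - n.v * hDdef
  have e3 : g.a * xu - g.h * xv = R := by
    apply mul_left_cancel₀ hD
    linear_combination g.a * hxu - g.h * hxv - R * hDdef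
  have key : x * g = g * n * x * T ν τ σ ((x * g).t - (g * n * x).t) := by
    apply eq_mul_T
    · simp only [mul_a, x, hna]; ring
    · simp only [mul_h, x, hnh]; ring
    · simp only [mul_a, mul_h, mul_e, x, hna, hnh, hne]; ring
    · simp only [mul_b, x, hnb]; ring
    · simp only [mul_a, mul_h, mul_e, mul_b, mul_u, x, hna, hnh, hne, hnb]
      linear_combination e1
    · simp only [mul_a, mul_h, mul_e, mul_b, mul_v, x, hna, hnh, hne, hnb]
      linear_combination e2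
    · simp only [mul_a, mul_h, mul_e, mul_b, mul_u, mul_v, mul_z, x, hna, hnh, hne, hnb]
      linear_combination e3 + hR
  refine ⟨x, (x * g).t - (g * n * x).t, ?_⟩
  rw [mul_assoc (g * n), T_mul, ← mul_assoc]
  exact key

lemma stepA2 (h2 : (2 : E) ≠ 0) (h3 : (3 : E) ≠ 0) (hν : ∀ x : E, ν ≠ x ^ 2)
    (g n : Grp ν τ σ) (hga : g.a = 0) (hgh : g.h = 0) (hg : ¬ (g.e = 0 ∧ g.b = 0)) (hn : InN n) :
    ∃ (x : Grp ν τ σ) (s : F), x * g = g * n * T ν τ σ s * x := by
  obtain ⟨hna, hnh, hne, hnb⟩ := hn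
  have h12 : (12 : E) ≠ 0 := by
    have : (12 : E) = 2 * 2 * 3 := by norm_num
    rw [this]; exact mul_ne_zero (mul_ne_zero h2 h2) h3
  have hg' : ¬ (12 * g.e = 0 ∧ g.b = 0) := by
    rintro ⟨q1, q2⟩
    exact hg ⟨(mul_eq_zero.mp q1).resolve_left h12, q2⟩
  have hD := norm_ne hν hg'
  set D := ν * (12 * g.e) ^ 2 - g.b ^ 2 with hDdef
  obtain ⟨A, hA⟩ : ∃ A, D * A = -(12 * g.e * n.u - g.b * n.v) :=
    ⟨-(12 * g.e * n.u - g.b * n.v) / D, by field_simp⟩
  obtain ⟨H, hH⟩ : ∃ H, D * H = -(12 * ν * g.e * n.v - g.b * n.u) :=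
    ⟨-(12 * ν * g.e * n.v - g.b * n.u) / D, by field_simp⟩
  set R := n.z + A * (g.u + n.u) + 6 * ν * A ^ 2 * g.e - H * (g.v + n.v + A * g.b)
    - 6 * H ^ 2 * g.e with hR
  obtain ⟨xe, hxe⟩ : ∃ xe, 2 * D * xe = -(R * g.b) := ⟨-(R * g.b) / (2 * D), by field_simp⟩
  obtain ⟨xb, hxb⟩ : ∃ xb, 2 * D * xb = -(144 * ν * R * g.e) :=
    ⟨-(144 * ν * R * g.e) / (2 * D), by field_simp⟩
  let x : Grp ν τ σ := { a := A, h := H, e := xe, b := xb, u := 0, v := 0, z := 0, t := 0 }
  have e1 : n.u + 12 * ν * A * g.e + H * g.b = 0 := by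
    apply mul_left_cancel₀ hD
    linear_combination 12 * ν * g.e * hA + g.b * hH + n.u * hDdef
  have e2 : n.v + A * g.b + 12 * H * g.e = 0 := by
    apply mul_left_cancel₀ hD
    linear_combination g.b * hA + 12 * g.e * hH + n.v * hDdef
  have e3 : 2 * (xe * g.b - g.e * xb) = R := by
    apply mul_left_cancel₀ hD
    linear_combination g.b * hxe - g.e * hxb - R * hDdef
  have key : x * g = g * n * x * T ν τ σ ((x * g).t - (g * n * x).t) := by
    apply eq_mul_T
    · simp only [mul_a, x, hna, hga]; ring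
    · simp only [mul_h, x, hnh, hgh]; ring
    · simp only [mul_a, mul_h, mul_e, x, hna, hnh, hne, hga, hgh]; ring
    · simp only [mul_b, x, hnb]; ring
    · simp only [mul_a, mul_h, mul_e, mul_b, mul_u, x, hna, hnh, hne, hnb, hga, hgh]
      linear_combination -e1
    · simp only [mul_a, mul_h, mul_e, mul_b, mul_v, x, hna, hnh, hne, hnb, hga, hgh]
      linear_combination -e2
    · simp only [mul_a, mul_h, mul_e, mul_b, mul_u, mul_v, mul_z, x, hna, hnh, hne, hnb, hga, hgh]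
      linear_combination e3 + hR
  refine ⟨x, (x * g).t - (g * n * x).t, ?_⟩
  rw [mul_assoc (g * n), T_mul, ← mul_assoc]
  exact key

lemma stepA (h2 : (2 : E) ≠ 0) (h3 : (3 : E) ≠ 0) (hν : ∀ x : E, ν ≠ x ^ 2)
    (g n : Grp ν τ σ) (hg : ¬ InN g) (hn : InN n) :
    ∃ (x : Grp ν τ σ) (s : F), x * g = g * n * T ν τ σ s * x := by
  by_cases h : g.a = 0 ∧ g.h = 0
  · apply stepA2 h2 h3 hν g n h.1 h.2 _ hn
    rintro ⟨q1, q2⟩
    exact hg ⟨h.1, h.2, q1, q2⟩
  · exact stepA1 h2 h3 hν g n h hn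

lemma stepB (h2 : (2 : E) ≠ 0) (hτ : Function.Surjective τ)
    (hσ : ∀ a : E, a ≠ 0 → ∀ s : F, ∃ x, σ x a - σ a x = s)
    (g : Grp ν τ σ) (hg : ¬ InN g) (s : F) :
    ∃ x : Grp ν τ σ, x * g = g * T ν τ σ s * x := by
  have h8 : (8 : E) ≠ 0 := by
    have : (8 : E) = 2 * 2 * 2 := by norm_num
    rw [this]; exact mul_ne_zero (mul_ne_zero h2 h2) h2
  by_cases hh : g.h = 0
  · by_cases ha : g.a = 0
    · -- a = h = 0
      obtain ⟨y, hy⟩ := hτ s
      obtain ⟨xu, xv, hx⟩ : ∃ xu xv : E, 8 * xu * g.e + 2 * xv * g.b = y := by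
        by_cases he : g.e = 0
        · have hb : g.b ≠ 0 := fun hb => hg ⟨ha, hh, he, hb⟩
          exact ⟨0, y / (2 * g.b), by field_simp; ring⟩
        · exact ⟨y / (8 * g.e), 0, by field_simp; ring⟩
      refine ⟨{ a := 0, h := 0, e := 0, b := 0, u := xu, v := xv, z := 0, t := 0 }, ?_⟩
      rw [mul_T]
      ext
      · simp only [mul_a]; ring
      · simp only [mul_h]; ring
      · simp only [mul_e, ha, hh]; ring
      · simp only [mul_b]; ring
      · simp only [mul_u, ha, hh]; ring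
      · simp only [mul_v, ha, hh]; ring
      · simp only [mul_z, ha, hh]; ring
      · have h1 : P (ν := ν) (τ := τ) (σ := σ) { a := 0, h := 0, e := 0, b := 0, u := xu, v := xv, z := 0, t := 0 } g
            = y + P (ν := ν) (τ := τ) (σ := σ) { a := g.a, h := g.h, e := g.e, b := g.b, u := g.u, v := g.v, z := g.z, t := g.t + s }
              { a := 0, h := 0, e := 0, b := 0, u := xu, v := xv, z := 0, t := 0 } := by
          simp only [P, ha, hh]
          rw [← hx]
          ring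
        simp only [mul_t]
        rw [h1, map_add, hy, ha]
        simp only [map_zero, AddMonoidHom.zero_apply]
        abel
    · -- h = 0, a ≠ 0
      obtain ⟨xa, hxa⟩ := hσ g.a ha s
      obtain ⟨r, hr⟩ : ∃ r, xa = r * g.a := ⟨xa / g.a, by field_simp⟩
      obtain ⟨w, hw⟩ : ∃ w, 2 * w = g.a * r * (r - 1) * g.b :=
        ⟨g.a * r * (r - 1) * g.b / 2, by field_simp⟩
      let x : Grp ν τ σ :=
        { a := xa, h := 0, e := r * g.e, b := r * g.b,
          u := r * g.u + 6 * ν * g.a * r * (r - 1) * g.e, v := r * g.v + w, z := 0, t := 0 }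
      refine ⟨x, ?_⟩
      rw [mul_T]
      ext
      · simp only [mul_a]; ring
      · simp only [mul_h]; ring
      · simp only [mul_e, x, hh]; ring
      · simp only [mul_b]; ring
      · simp only [mul_u, x, hh, hr]; ring
      · simp only [mul_v, x, hh, hr]; ring
      · simp only [mul_z, x, hh, hr]; ring
      · simp only [mul_t]
        have hP : P x g = P (ν := ν) (τ := τ) (σ := σ) { a := g.a, h := g.h, e := g.e, b := g.b, u := g.u, v := g.v, z := g.z, t := g.t + s } x := by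
          simp only [P, x, hh, hr]
          linear_combination g.b * hw
        rw [hP]
        have : σ xa g.a = s + σ g.a xa := by rw [← hxa]; abel
        change 0 + g.t + (_ + σ xa g.a) = g.t + s + 0 + (_ + σ g.a xa)
        rw [this]
        abel
  · -- h ≠ 0
    obtain ⟨y, hy⟩ := hτ s
    refine ⟨{ a := 0, h := 0, e := 0, b := 0, u := 0, v := 0, z := y / (8 * g.h), t := 0 }, ?_⟩
    rw [mul_T]
    ext
    · simp only [mul_a]; ring
    · simp only [mul_h]; ring
    · simp only [mul_e]; ring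
    · simp only [mul_b]; ring
    · simp only [mul_u]; ring
    · simp only [mul_v]; ring
    · simp only [mul_z]; ring
    · simp only [mul_t, map_zero, AddMonoidHom.zero_apply]
      have h1 : P (ν := ν) (τ := τ) (σ := σ) { a := 0, h := 0, e := 0, b := 0, u := 0, v := 0, z := y / (8 * g.h), t := 0 } g = y := by
        simp only [P]
        field_simp
        ring
      have h2' : P (ν := ν) (τ := τ) (σ := σ) { a := g.a, h := g.h, e := g.e, b := g.b, u := g.u, v := g.v, z := g.z, t := g.t + s }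
          { a := 0, h := 0, e := 0, b := 0, u := 0, v := 0, z := y / (8 * g.h), t := 0 } = 0 := by
        simp only [P]
        ring
      rw [h1, h2', hy, map_zero]
      abel

/-- the Camina property -/
lemma camina (h2 : (2 : E) ≠ 0) (h3 : (3 : E) ≠ 0) (hν : ∀ x : E, ν ≠ x ^ 2)
    (hτ : Function.Surjective τ)
    (hσ : ∀ a : E, a ≠ 0 → ∀ s : F, ∃ x, σ x a - σ a x = s)
    (g n : Grp ν τ σ) (hg : ¬ InN g) (hn : InN n) :
    ∃ x : Grp ν τ σ, x * g = g * n * x := by
  obtain ⟨x, s, hx⟩ := stepA h2 h3 hν g n hg hn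
  have hg1 : ¬ InN (g * n * T ν τ σ s) := by
    rw [mul_T]
    rintro ⟨q1, q2, q3, q4⟩
    apply hg
    obtain ⟨hna, hnh, hne, hnb⟩ := hn
    simp only [mul_a, mul_h, mul_e, mul_b, hna, hnh, hne, hnb] at q1 q2 q3 q4
    refine ⟨by simpa using q1, by simpa using q2, ?_, by simpa using q4⟩
    simpa using q3
  obtain ⟨y, hy⟩ := stepB h2 hτ hσ (g * n * T ν τ σ s) hg1 (-s)
  refine ⟨y * x, ?_⟩
  calc y * x * g = y * (x * g) := mul_assoc _ _ _
    _ = y * (g * n * T ν τ σ s) * x := by rw [hx, ← mul_assoc]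
    _ = g * n * T ν τ σ s * T ν τ σ (-s) * y * x := by rw [hy]
    _ = g * n * (T ν τ σ s * T ν τ σ (-s)) * y * x := by rw [mul_assoc (g * n)]
    _ = g * n * (y * x) := by rw [T_add, add_neg_cancel, T_zero, mul_one, mul_assoc]

end Grp
end Helper76.Cam
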